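import Pool.Agent.RS.StmtsF

set_option autoImplicit false

/-!
# Squad RS, row RSS: Theorem RS from the termination theorem and the downward recursion
-/

namespace Pool.Agent.RS.H85

open Pool.Agent.RS MvPolynomial

/-- RSS -/
theorem rss (ter : TerStmt) (dow : DowStmt) (st0 : St0Stmt) (nmt : NmtStmt) : RssStmt := by
  intro E _ _ D
  obtain ⟨Q, Rs, hR0, hdow⟩ := dow D
  obtain ⟨r, hter⟩ := ter E D Q
  obtain ⟨Δ, hΔ⟩ := hdow r
  refine ⟨r, Δ, ?_⟩
  intro ι _ _ a b hab hnum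
  have hno : ∀ (j : ℕ → ℕ) (q lc e ρ α β : ℕ → MvPolynomial ℕ E) (Lf : FF E →+ FF E)
      (a' b' : ι → MvPolynomial ℕ E), ¬ Stage a b Q (Rs r) r j q lc e ρ α β Lf a' b' := by
    intro j q lc e ρ α β Lf a' b' hst
    obtain ⟨hF, _, _, _, _, _, h3, h4, h5⟩ := hst
    have hb' : ∀ t, b' t ≠ 0 := fun t => (h4 t).2.2.2.1
    have htot : total a' b' ≠ 0 := (((nmt ι).2.2 E a' b' hb').2).mpr h5
    obtain ⟨t, _, ht⟩ := Finset.exists_ne_zero_of_sum_ne_zero htot
    apply ht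
    rw [← (h4 t).1]
    obtain ⟨s, f, u, hg, hw⟩ := hter j q lc e ρ α β hF (a t) (b t) (hab t).2.1 (hab t).2.2 (hab t).1
    have hw' : io E (a t) / io E (b t) = ∑ l ∈ Finset.range r, io E (f l) /
        io E ((∏ i ∈ Finset.range l, q i) ^ s l * u l) := hw
    rw [hw', map_sum]
    apply Finset.sum_eq_zero
    intro l hl
    have hl' := Finset.mem_range.mp hl
    exact h3 l hl' (f l) (u l) (s l) (hg l hl')
  have hst := st0 E ι a b Q (Rs 0) (fun t => ⟨(hab t).1, by rw [hR0]; exact (hab t).2.1,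
    by rw [hR0]; exact (hab t).2.2⟩) hnum
  exact hΔ E ι a b hno _ _ _ _ _ _ _ _ a b hst

end Pool.Agent.RS.H85
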